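import Pool.Agent.H509.Deco2

/-!
# MP_dd9835_nt: Rubin's conjecture for multiquadratic extensions and decomposition groups

Let `H / F` be an abelian extension of number fields whose group `G` has exponent two, `#G = 2 ^ m`,
`S` a finite set of places of `F` which contains the archimedean and the ramified ones,
`v_1, ..., v_r` the places of `S` which split completely, `#S ≥ r + 1` (`RubinData`), so `#S - r` is the
number of the places of `S` which do not split completely in `H`. Let `G_v` be the decomposition
groups.

A character `χ` of `G` is active if it occurs in `Θ^{(r)}_{S,T}(H/F, 0)`: it is not trivial on `G_v`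
for `v` in `S` other than `v_1, ..., v_r` (or `χ = 1` and `#S = r + 1`). For such a `χ` let `D_χ` be the
subgroup of `ker χ` generated by the groups `G_v ∩ ker χ`, `v ∈ S`.

**Theorem.** (1) Rubin's conjecture (`D.Rubin T`, the statement of Q1) holds for `H / F`, `S`, `T` if
`2 ^ m ≤ 2 ^ (#S - r - 1) [ker χ : D_χ]` for all active characters `χ`; more generally if
`2 ^ m ≤ 2 ^ ((#S - r - 1) + max (0, t - (r + 1))) [ker χ : D_χ]`, `t` the number of the prime ideals in
`T` which do not divide two. In other words: `D_χ` has rank at most `#S - r - 2` (if `χ ≠ 1`).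

(2) In particular it holds for all `T` if `4 ∏ (#G_v / 2) ≤ 2 ^ (#S - r)`, the product over the places
`v` of `S` which do not split completely. For example this is so for all `m` if all `G_v` have order
at most four (as it is the case if `v` is archimedean or does not divide two) and at least two of
them have order two: as `∏ (#G_v / 2) ≤ 2 ^ (#S - r - 2)`.

The proof combines the class number formula for the quadratic extensions `K / F` in `H` with class
field theory: if `K` belongs to `χ`, the field which belongs to `D_χ` is an unramified extension of `K`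
in which all places over `S` split completely, and its Artin map kills the classes of the ideals of
`F`. So `[ker χ : D_χ]` divides the order of the cokernel of `Cl_S(F) → Cl_S(K)`, and this cokernel
is a factor of the leading term of `L_S(χ, s)` at `s = 0`.
-/

set_option autoImplicit false

open NumberField IsDedekindDomain

noncomputable section

namespace Pool.Agent.Results.MP_dd9835_nt.MultiquadraticDecomposition

open Pool.Agent.K3h30.RS Pool.Agent.H509

/-- **Rubin's conjecture for groups of exponent two and decomposition groups.** In (1) the subgroup is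
generated by the `γ` with `χ (γ) = 1` which fix a place over `S`. In (2) `w i` are places over `S`
which do not split completely, at least one over each such place of `F`. `#S` is the number of the
archimedean places of `F` plus the number of the prime ideals in `D.S`. -/
theorem result {F H G : Type} [Field F] [NumberField F] [Field H] [NumberField H] [Algebra F H]
    [CommGroup G] [Finite G] [MulSemiringAction G H] [IsGaloisGroup G F H]
    (D : RubinData F H G) (hG : ∀ g : G, g * g = 1) :
    (∀ T : Finset (HeightOneSpectrum (𝓞 F)), D.Allowed T →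
      (∀ χ : G →* ℂˣ, D.Active χ → Nat.card G ≤
        2 ^ ((Fintype.card (InfinitePlace F) + D.S.card - (D.r + 1)) +
          ((T.filter fun v => Odd (Ideal.absNorm v.asIdeal)).card - (D.r + 1))) *
        (Subgroup.closure {γ : G | χ γ = 1 ∧ ∃ w : Place H,
          InS (D.S : Set (HeightOneSpectrum (𝓞 F))) w ∧ Fixes w γ}).relIndex χ.ker) →
      D.Rubin T) ∧
    ∀ (ι : Type) [Fintype ι] (w : ι → Place H),
      (∀ i, InS (D.S : Set (HeightOneSpectrum (𝓞 F))) (w i) ∧ ∀ j, ¬ Conj G (w i) (D.w j)) →
      (∀ u : Place H, InS (D.S : Set (HeightOneSpectrum (𝓞 F))) u →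
        (∀ j, ¬ Conj G u (D.w j)) → ∃ i, Conj G u (w i)) →
      4 * ∏ i, (Nat.card {γ : G // Fixes (w i) γ} / 2) ≤
        2 ^ (Fintype.card (InfinitePlace F) + D.S.card - D.r) →
      ∀ T : Finset (HeightOneSpectrum (𝓞 F)), D.Allowed T → D.Rubin T := by
  refine ⟨fun T hT h => ?_, fun ι _ w hw hall hprod T hT =>
    E3.rubin_prod D T hT hG w hw hall hprod⟩
  refine E3.rubin_dec D T hT hG fun χ ha => ?_
  have h1 := h χ ha
  have : Fact (Nat.Prime 2) := ⟨Nat.prime_two⟩
  obtain ⟨m, hm⟩ := (IsPGroup.iff_card (p := 2) (G := G)).1 fun g => ⟨1, by
    rw [pow_one, pow_two, hG g]⟩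
  have hrel : ∃ k, (Rec.decK (H := H) D.S χ).relIndex χ.ker = 2 ^ k := by
    have h2 : (Rec.decK (H := H) D.S χ).relIndex χ.ker ∣ 2 ^ m := by
      rw [← hm]
      refine (Subgroup.card_quotient_dvd_card _).trans ?_
      exact Subgroup.card_subgroup_dvd_card _
    obtain ⟨k, -, hk⟩ := (Nat.dvd_prime_pow Nat.prime_two).1 h2
    exact ⟨k, hk⟩
  obtain ⟨k, hk⟩ := hrel
  have h2 : Nat.card G ≤ 2 ^ ((Fintype.card (InfinitePlace F) + D.S.card - (D.r + 1)) +
      (Pool.Agent.K3h56.E2.oddCard T - (D.r + 1))) * (Rec.decK (H := H) D.S χ).relIndex χ.ker := h1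
  rw [hm, hk, ← pow_add] at h2 ⊢
  exact pow_dvd_pow 2 ((Nat.pow_le_pow_iff_right (by norm_num)).1 h2)

end Pool.Agent.Results.MP_dd9835_nt.MultiquadraticDecomposition
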