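import Pool.Agent.H896.SG.Cases6

/-!
# MP_dd9835_nt: Rubin's conjecture for multiquadratic extensions with small decomposition groups

Let `H / F` be an abelian extension of number fields whose group `G` has exponent two, `#G = 2 ^ m`,
`S` a finite set of places of `F` which contains the archimedean and the ramified ones,
`v_1, ..., v_r` the places of `S` which split completely, `#S ≥ r + 1` (`RubinData`). Let `Σ` be the
subgroup of `G` which is generated by the decomposition groups of the places of `S`.

**Theorem.** Rubin's conjecture (the statement of Q1, in all ranks) holds for `H / F`, all finite sets
`S' ⊇ S` and all admissible `T`, if one of the following conditions is satisfied: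

(a) `#Σ ≤ 2 ^ (#S - r)` (`#S - r` is the number of the places of `S` which do not split completely);

(b) `∑ [F_v : ℚ_2] ≤ 1 + #{real places of F which become complex in H}`, the sum over the `v` above two
which are ramified in `H`; for example if `H / F` is unramified at two;

(c) `[F : ℚ] ≤ 2 + #{real places of F which become complex in H}` and `H` is not maximal: for some
`x ∈ F^*`, with even valuations at the prime ideals which are unramified in `H`, the square root of `x`
is in none of the fields `H E`, where `E / F` is an extension of degree at most two which is unramified
at all prime ideals, and in which all places of `F` split which are ramified in `H`;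

(d) `F` is totally real, and one of the following conditions is satisfied:
(d1) every quadratic extension `E / F` which is unramified at all prime ideals, and in which all places
of `F` split which are ramified in `H` (prime ideals, and real places which become complex), is totally
real;
(d2) every quadratic extension `E / F` which is unramified at all prime ideals, and in which the prime
ideals above two split, is totally real, and there is only one prime ideal above two, or `[F : ℚ] = 2`;
(d3) `F` is the real quadratic field `ℚ(√(a² + b²))` or `ℚ(√(a² + 2 b²))`, `a`, `b` coprime integers (for
example `ℚ(√p)`, `p` a prime number which is not `≡ 7 mod 8`).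

So for every quadratic field `F` the conjecture is true for all `H / F` of exponent two which are not
maximal in the sense of (c), and all `S`. For `F` as in (d2) or (d3) it is true for all extensions
`H / F` of exponent two. The same holds for totally real fields `F` if the class group and the narrow
class group of `F` have the same `2`-rank (for example if `F` has units of all signatures, or odd narrow
class number, as the maximal real subfields of the fields of the `2 ^ n`-th roots of unity, by a theorem
of Weber), because then there are no quadratic extensions `E` which are unramified at all prime ideals
and not totally real, and (d1) is satisfied. (d1) is also satisfied if at most one real place of `F`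
splits completely in `H` (for example if `H` is totally complex): an extension `E` as in (d1) is not
ramified at exactly one place, by the product formula for `-1`.

Note that `m` is arbitrary. Known results for such groups (rank one: Sands, Dummit-Sands-Tangedal)
assume that `S` is large compared with `m`, such that all the `χ`-parts of the Rubin element are
separately integral (that is a condition like `2 #Σ ≤ 2 ^ (#S - r)`). If `#Σ = 2 ^ (#S - r)` this is not
true: `2 ^ (m - 1)`, but not `2 ^ m`, divides the `χ`-part of the element, for some sets `S`, and one has
to show that for all homomorphisms the number of the characters with odd quotient is even.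

The steps of the proof: (1) By class field theory the sets `S'` and `T` may be changed (one set
`S ∪ V` and one `T = {t}` decide all; the elements of `V` split completely and generate the class
group of `H` modulo `t`). (2) In this situation there is an orthogonal decomposition of the group of
the local symbols: maps `L_i : Fˣ → G_i` for the `i` in a set of `#S - r` places, `G_i` the
decomposition groups, with product formula, `S`-unramified outside, and the theorem of Hasse on norms.
(3) For an active character `χ` and the quadratic field `K / F` which belongs to `χ` the parity of the
quotient is determined by the class number formula and the index of a subgroup `W_χ` of the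
`(S, T)`-Selmer group, defined by a symbol which is constructed with Hilbert 90 and the norm theorem
for `K`. (4) This symbol is bilinear in the characters (reciprocity for biquadratic extensions), so
each element of the Selmer group is in an even number of the groups `W_χ`. (5) For (b) - (d): the
Kummer group of `H / F` is isotropic for the sum of the Hilbert symbols, so
`(#Σ)² ≤ ∏ # (F_v^* / F_v^{*2})`, the product over the ramified places. (6) For (c) the class of `x` can be added to the Kummer group.
For (d): for every real
place `w` of `F` which splits completely in `H` there is an `x ∈ F^*`, negative at `w`, positive at the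
other real places of `F` which split completely in `H`, such that the valuation of `x` is even at the
prime ideals which are unramified in `H`. Otherwise there is, by the existence theorem of class field
theory, a quadratic extension `E` as in (d1) which is not totally real. The classes of these elements
`x` are orthogonal to the Kummer group, and they are independent modulo the Kummer group and the
elements which are squares at the ramified places: otherwise there is a quadratic extension of `F`
which is unramified at all prime ideals, split at the places which ramify in `H` and ramified at some
real places which split in `H`; by the product formula for `x` the number of the real places where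
both this extension is ramified and `x` is negative is even, a contradiction.
-/

set_option autoImplicit false

open NumberField IsDedekindDomain

noncomputable section

namespace Pool.Agent.Results.MP_dd9835_nt.MultiquadraticExtensions

open Pool.Agent.K3h30.RS Pool.Agent.H509

/-- The degree of `F_v` over `ℚ_2`, for a prime ideal `v` of `F` above two: ramification index times
residue degree. -/
def localDegree {F : Type} [Field F] [NumberField F] (v : HeightOneSpectrum (𝓞 F)) : ℕ :=
  Ideal.ramificationIdx' (Ideal.span {(2 : ℤ)}) v.asIdeal *
    Ideal.inertiaDeg' (Ideal.span {(2 : ℤ)}) v.asIdeal

/-- The valuation of `x` at `v` is even: it is the valuation of a square. -/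
def EvenAt {F : Type} [Field F] [NumberField F] (v : HeightOneSpectrum (𝓞 F)) (x : F) : Prop :=
  ∃ y : F, v.valuation F x = v.valuation F y ^ 2

/-- the prime ideals of `F` which are ramified in `H` -/
def ramPrimes (F H : Type) [Field F] [NumberField F] [Field H] [NumberField H] [Algebra F H] :
    Set (HeightOneSpectrum (𝓞 F)) :=
  {v | ¬ Squarefree (v.asIdeal.map (algebraMap (𝓞 F) (𝓞 H)))}

/-- the real embeddings of `F` which do not extend to real embeddings of `H` -/
def ramReal (F H : Type) [Field F] [NumberField F] [Field H] [NumberField H] [Algebra F H] :
    Set (F →+* ℝ) :=
  {φ | ¬ ∃ χ : H →+* ℝ, χ.comp (algebraMap F H) = φ}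

/-- The quadratic extension `E / F` is unramified at all prime ideals, the prime ideals in `P` split in `E`
(they do not generate prime ideals), and the real embeddings in `R` extend to real embeddings of `E`. -/
def SplitAt {F : Type} [Field F] [NumberField F] (P : Set (HeightOneSpectrum (𝓞 F)))
    (R : Set (F →+* ℝ)) (E : Type) [Field E] [NumberField E] [Algebra F E] : Prop :=
  (∀ v : HeightOneSpectrum (𝓞 F), Squarefree (v.asIdeal.map (algebraMap (𝓞 F) (𝓞 E)))) ∧
    (∀ v ∈ P, ¬ (v.asIdeal.map (algebraMap (𝓞 F) (𝓞 E))).IsPrime) ∧
    ∀ φ ∈ R, ∃ χ : E →+* ℝ, χ.comp (algebraMap F E) = φ

/-- Every quadratic extension `E / F` which is unramified at all prime ideals, split at the prime ideals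
in `P`, and real at the real embeddings in `R` is totally real (all real embeddings of the totally real
field `F` extend). -/
def OnlyReal {F : Type} [Field F] [NumberField F] (P : Set (HeightOneSpectrum (𝓞 F)))
    (R : Set (F →+* ℝ)) : Prop :=
  ∀ (E : Type) [Field E] [NumberField E] [Algebra F E], Module.finrank F E = 2 → SplitAt P R E →
    ∀ φ : F →+* ℝ, ∃ χ : E →+* ℝ, χ.comp (algebraMap F E) = φ

/-- `H` is not maximal: for some `x ∈ F^*`, with even valuations at the prime ideals which are unramified
in `H`, `√x` is not in `H E` for `E = F` and for all quadratic extensions `E / F` which are unramified at
all prime ideals and split at all places of `F` which are ramified in `H`. (As `H / F` has exponent two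
and `[E : F] ≤ 2`, `√x` is in `H E` if and only if `x y` is a square in `E` for some `y ∈ F^*` which is a
square in `H`.) -/
def NotMaximal (F H : Type) [Field F] [NumberField F] [Field H] [NumberField H] [Algebra F H] :
    Prop :=
  ∃ x : F, x ≠ 0 ∧
    (∀ v : HeightOneSpectrum (𝓞 F), Squarefree (v.asIdeal.map (algebraMap (𝓞 F) (𝓞 H))) →
      EvenAt v x) ∧
    ∀ y : F, y ≠ 0 → IsSquare (algebraMap F H y) → ¬ IsSquare (x * y) ∧
      ∀ (E : Type) [Field E] [NumberField E] [Algebra F E], Module.finrank F E = 2 →
        SplitAt (ramPrimes F H) (ramReal F H) E → ¬ IsSquare (algebraMap F E (x * y))

/-- **Rubin's conjecture for groups of exponent two.** `#S` is the number of the archimedean places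
of `F` plus the number of the prime ideals in `D.S`. In (a) the subgroup is generated by the `γ`
which fix a place over `S`. In (b) `W` contains all prime ideals above two which are ramified
in `H`. In (c) the degree of `F` is at most two plus the number of the real places of `F` which become
complex in `H`. In (d) `F` is totally real; (d1): `OnlyReal P R` for the prime ideals `P` which are
ramified in `H` and the real embeddings `R` of `F` which do not extend to real embeddings of `H`; (d2):
`OnlyReal P ∅` for the set `P` of the prime ideals above two, and `P` has only one element or `F` is
quadratic; (d3): `F` is quadratic and contains the irrational number `d = √(a² + b²)` or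
`√(a² + 2 b²)`. -/
theorem result {F H G : Type} [Field F] [NumberField F] [Field H] [NumberField H] [Algebra F H]
    [CommGroup G] [Finite G] [MulSemiringAction G H] [IsGaloisGroup G F H]
    (D : RubinData F H G) (hG : ∀ g : G, g * g = 1)
    (h : Nat.card (Subgroup.closure {γ : G | ∃ w : Place H,
          InS (D.S : Set (HeightOneSpectrum (𝓞 F))) w ∧ Fixes w γ}) ≤
        2 ^ (Fintype.card (InfinitePlace F) + D.S.card - D.r) ∨
      (∃ W : Finset (HeightOneSpectrum (𝓞 F)), (∀ v : HeightOneSpectrum (𝓞 F),
          (2 : 𝓞 F) ∈ v.asIdeal → v ∈ ramPrimes F H → v ∈ W) ∧
        ∑ v ∈ W, localDegree v ≤ 1 + Nat.card {v : InfinitePlace F // v.IsReal ∧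
          ∀ w : InfinitePlace H, w.comap (algebraMap F H) = v → w.IsComplex}) ∨
      (Module.finrank ℚ F ≤ 2 + Nat.card {v : InfinitePlace F // v.IsReal ∧
          ∀ w : InfinitePlace H, w.comap (algebraMap F H) = v → w.IsComplex} ∧
        NotMaximal F H) ∨
      ((∀ v : InfinitePlace F, v.IsReal) ∧
        (OnlyReal (ramPrimes F H) (ramReal F H) ∨
        (((∃ v : HeightOneSpectrum (𝓞 F), ∀ w : HeightOneSpectrum (𝓞 F),
            (2 : 𝓞 F) ∈ w.asIdeal → w = v) ∨ Module.finrank ℚ F = 2) ∧
          OnlyReal {v : HeightOneSpectrum (𝓞 F) | (2 : 𝓞 F) ∈ v.asIdeal} ∅) ∨
        (Module.finrank ℚ F = 2 ∧ ∃ (a b : ℤ) (d : F), IsCoprime a b ∧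
          (d ^ 2 = a ^ 2 + b ^ 2 ∨ d ^ 2 = a ^ 2 + 2 * b ^ 2) ∧
          d ∉ Set.range (algebraMap ℚ F)))))
    (D' : RubinData F H G) (hD' : D.S ⊆ D'.S) (T : Finset (HeightOneSpectrum (𝓞 F)))
    (hT : D'.Allowed T) : D'.Rubin T := by
  rw [← rubinM_bot]
  exact Pool.Agent.BT9.rubin_bt Pool.Agent.BT9.all D hG (Pool.Agent.H896.SG.card_of_cases6 D hG h) D' hD' T
    hT.1 (allowed_free D' hT)

end Pool.Agent.Results.MP_dd9835_nt.MultiquadraticExtensions
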