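import Pool.Agent.H509.Tors

/-!
# MP_dd9835_nt: Rubin's conjecture for all `S' ⊇ S` and all `T` is one of its cases

Let `H / F` be a finite abelian extension of number fields with group `G`, `S` a finite set of
places of `F` which contains the archimedean and the ramified ones, `v_1, ..., v_r` the places of
`S` which split completely, `#S ≥ r + 1` (`RubinData`); `D.Rubin T` is the statement of Q1 for
`H / F`, `S` and `T`, and `D.RubinAt p T` its part at the prime number `p` (`ψ (u) ∈ ℤ_(p)[G]` in
place of `ψ (u) ∈ ℤ[G]`). The data, and in particular the rank `r`, change with `S`: when a prime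
ideal which splits completely is added to `S`, the rank grows by one.

**Theorem.** Let `T₀` be an admissible set for `S` and `V` a finite set of prime ideals of `F`
outside `S ∪ T₀` which split completely in `H`, such that the prime ideals of `H` over `S ∪ V`
generate the ray class group of `H` modulo `T₀` (there are such sets `V` for all `T₀`). Then Rubin's
conjecture for the *single* pair `(S ∪ V, T₀)` is equivalent to Rubin's conjecture for *all* finite
sets `S' ⊇ S` (in all ranks) and *all* sets `T` which are admissible for `S'`.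

The same is true for the parts at a prime number `p`. There it is enough that the prime ideals over
`S ∪ V` generate the `p`-part of the ray class group modulo `T₀`, and the only condition on `T₀` and
on the sets `T` is that they are disjoint from `S` and `S'` and that no `p`-th root of unity of `H`
other than `1` is congruent to one modulo the set (`PFree`; if `H` does not contain the `p`-th roots
of unity this is empty, and one may take `T₀ = ∅`).

The steps of the proof: the contraction with the orders at the primes over `v`, `v ∈ V`, (from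
`S ∪ {v}` to `S`), the exterior multiplication with elements of `H` whose order at one prime ideal is
one (from `S` to `S ∪ {v}` if `S` generates the ray class group), the formula for the
`G`-homomorphisms on `U_{S, T ∪ {t}}` by local characters (from `T` to `T ∪ {t}`) and the exterior
multiplication with an element which is a primitive root at one prime ideal over `t` (from
`S ∪ {q}`, `T ∪ {t}` to `S`, `T`). For the existence of `V` the fact that the L-functions of
non-trivial ray class characters of `H` are entire is used.
-/

set_option autoImplicit false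

open NumberField IsDedekindDomain

noncomputable section

namespace Pool.Agent.Results.MP_dd9835_nt.OneCaseDecidesAll

open Pool.Agent.K3h30.RS Pool.Agent.H509

open Classical in
/-- Rubin's conjecture for all `S' ⊇ S` and all `T` is equivalent to its case `S ∪ V`, `T₀`, if the
elements of `V` split completely and the prime ideals over `S ∪ V` generate the ray class group of
`H` modulo `T₀`; such sets `V` exist; the same for the parts at `p`. -/
theorem result {F H G : Type} [Field F] [NumberField F] [Field H] [NumberField H] [Algebra F H]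
    [CommGroup G] [Finite G] [MulSemiringAction G H] [IsGaloisGroup G F H]
    (D : RubinData F H G) :
    (∀ T₀ : Finset (HeightOneSpectrum (𝓞 F)), ∃ V : Finset (HeightOneSpectrum (𝓞 F)),
      SplitOutside D T₀ V ∧ Generates H ⊥ ((D.S ∪ V : Finset (HeightOneSpectrum (𝓞 F))) :
        Set (HeightOneSpectrum (𝓞 F))) (T₀ : Set (HeightOneSpectrum (𝓞 F)))) ∧
    (∀ T₀ V : Finset (HeightOneSpectrum (𝓞 F)), D.Allowed T₀ → SplitOutside D T₀ V →
      Generates H ⊥ ((D.S ∪ V : Finset (HeightOneSpectrum (𝓞 F))) :
        Set (HeightOneSpectrum (𝓞 F))) (T₀ : Set (HeightOneSpectrum (𝓞 F))) →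
      (∃ D₁ : RubinData F H G, D₁.S = D.S ∪ V) ∧
      ∀ D₁ : RubinData F H G, D₁.S = D.S ∪ V → D₁.Allowed T₀ ∧
        (D₁.Rubin T₀ ↔ ∀ D' : RubinData F H G, D.S ⊆ D'.S →
          ∀ T : Finset (HeightOneSpectrum (𝓞 F)), D'.Allowed T → D'.Rubin T)) ∧
    ∀ (p : ℕ) (hp : p.Prime) (T₀ V : Finset (HeightOneSpectrum (𝓞 F))), Disjoint D.S T₀ →
      PFree H p T₀ → SplitOutside D T₀ V →
      Generates H (notDvd p hp) ((D.S ∪ V : Finset (HeightOneSpectrum (𝓞 F))) :
        Set (HeightOneSpectrum (𝓞 F))) (T₀ : Set (HeightOneSpectrum (𝓞 F))) →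
      ∀ D₁ : RubinData F H G, D₁.S = D.S ∪ V →
        (D₁.RubinAt p T₀ ↔ ∀ D' : RubinData F H G, D.S ⊆ D'.S →
          ∀ T : Finset (HeightOneSpectrum (𝓞 F)), Disjoint D'.S T → PFree H p T →
            D'.RubinAt p T) := by
  have hdis : ∀ T₀ V : Finset (HeightOneSpectrum (𝓞 F)), SplitOutside D T₀ V →
      Disjoint D.S T₀ → ∀ D₁ : RubinData F H G, D₁.S = D.S ∪ V → Disjoint D₁.S T₀ := by
    intro T₀ V hV h D₁ hD₁
    rw [hD₁, Finset.disjoint_union_left]
    exact ⟨h, Finset.disjoint_left.2 fun v hv => (hV v hv).2.1⟩
  refine ⟨fun T₀ => ?_, fun T₀ V hT₀ hV hgen => ⟨exists_data D V, fun D₁ hD₁ => ?_⟩,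
    fun p hp T₀ V hT₀ hfree hV hgen D₁ hD₁ => ?_⟩
  · obtain ⟨V, hV, hgen⟩ := exists_V' D ∅ T₀
    refine ⟨V, fun v hv => ⟨(hV v hv).1, (hV v hv).2.2.1, (hV v hv).2.2.2⟩, hgen.mono ?_⟩
    exact Finset.coe_subset.2 Finset.subset_union_right
  · have hall : D₁.Allowed T₀ := ⟨hdis T₀ V hV hT₀.1 D₁ hD₁, hT₀.2⟩
    refine ⟨hall, fun h D' hD' T hT => ?_, fun h => h D₁ ?_ T₀ hall⟩
    · rw [← rubinM_bot] at h ⊢
      exact all_ST D hT₀.1 (allowed_free D hT₀) V hV hgen D₁ hD₁ h D' hD' T hT.1
        (allowed_free D' hT)
    · rw [hD₁]
      exact Finset.subset_union_left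
  · constructor
    · intro h D' hD' T hT hT'
      rw [← rubinM_notDvd D₁ T₀ hp] at h
      rw [← rubinM_notDvd D' T hp]
      exact all_ST D hT₀ (pfree_free D hp hfree) V hV hgen D₁ hD₁ h D' hD' T hT
        (pfree_free D' hp hT')
    · intro h
      refine h D₁ ?_ T₀ (hdis T₀ V hV hT₀ D₁ hD₁) hfree
      rw [hD₁]
      exact Finset.subset_union_left

end Pool.Agent.Results.MP_dd9835_nt.OneCaseDecidesAll
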