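import Pool.Agent.H509.PopAll

/-!
# MP_dd9835_nt: one case of Popescu's conjecture implies Rubin's conjecture for all `S` and `T`,
if the Sylow subgroups at the prime divisors of the number of the roots of unity are cyclic

Let `H / F` be a finite abelian extension of number fields with group `G`, `S` a finite set of
places of `F` which contains the archimedean and the ramified ones, `v_1, ..., v_r` the places of
`S` which split completely, `#S ≥ r + 1` (`RubinData`). `D.Rubin T` is Rubin's conjecture (the
statement of Q1 for `H / F`, `S` and `T`), `D.RubinAt p T` its part at the prime number `p`, and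
`Popescu D`, `PopescuAt p D` are Popescu's conjecture for `H / F` and `S` (without `T`) and its part
at `p`: `w_H η'` is in the lattice of the elements all of whose `(r - 1)`-fold evaluations by
`Hom_{ℤ[G]}(E_S, ℤ[G])` are images of units `ε` such that `H(ε ^ (1 / w_H)) / F` is abelian.

For `r = 1` both conjectures are equivalent (Tate), for `r ≥ 2` Rubin's conjecture for all `T`
implies Popescu's conjecture (Popescu), but the evaluations in Rubin's conjecture are by the
elements of the larger groups `Hom_{ℤ[G]}(U_{S,T}, ℤ[G])`, and the opposite implication was known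
for the `p`-parts such that the `p`-part of the group of the roots of unity of `H` is
cohomologically trivial.

**Theorem.** Let `V` be a finite set of prime ideals of `F` outside `S` which split completely in
`H`, such that every ideal class of the ring of `S ∪ V`-integers of `H` is trivial (there are such
sets, also nonempty ones), and let the rank for `S ∪ V` be positive. If the Sylow `p`-subgroup of
`G` is cyclic for all prime divisors `p` of `w_H` (for example if `w_H = 2` and the Sylow
`2`-subgroup is cyclic), then Popescu's conjecture for the single set `S ∪ V` implies Rubin's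
conjecture for all finite sets `S' ⊇ S` (in all ranks) and all `T` which are admissible for `S'`.
The same is true for the parts at a prime number `p` (for `p ∤ w_H` without any condition on `G`).

The steps of the proof: Popescu's conjecture for all `S'` follows from the case `S ∪ V`. Take a
prime ideal `t` whose Frobenius automorphism generates the Sylow `p`-subgroup. It is shown that the
module `Hom_{ℤ[G]}(U_{S,{t}}, ℤ[G]) / Hom_{ℤ[G]}(E_S, ℤ[G])` is cyclic at `p`, so that in the
determinants only one of the homomorphisms has to be taken from the larger group; for this one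
Tate's argument for `r = 1` applies to the units `ε`. This gives the `p`-part of Rubin's conjecture
for all `S'` and `T = {t}`, and then for all `T` by the theorem on one case (`OneCaseDecidesAll`).
-/

set_option autoImplicit false

open NumberField IsDedekindDomain

noncomputable section

namespace Pool.Agent.Results.MP_dd9835_nt.PopescuImpliesRubin

open Pool.Agent.K3h30.RS Pool.Agent.H509

open Classical in
/-- Popescu's conjecture for `S ∪ V` implies Rubin's conjecture for all `S' ⊇ S` and all `T`, if the
Sylow `p`-subgroups of `G` are cyclic for the prime divisors `p` of the number of the roots of unity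
of `H`; the same for the parts at `p`. -/
theorem result {F H G : Type} [Field F] [NumberField F] [Field H] [NumberField H] [Algebra F H]
    [CommGroup G] [Finite G] [MulSemiringAction G H] [IsGaloisGroup G F H]
    (D : RubinData F H G) :
    (∃ V : Finset (HeightOneSpectrum (𝓞 F)), V.Nonempty ∧ SplitOutside D ∅ V ∧ Generates H ⊥
      ((D.S ∪ V : Finset (HeightOneSpectrum (𝓞 F))) : Set (HeightOneSpectrum (𝓞 F))) ∅) ∧
    ∀ V : Finset (HeightOneSpectrum (𝓞 F)), SplitOutside D ∅ V →
      (∃ D₁ : RubinData F H G, D₁.S = D.S ∪ V) ∧
      ∀ D₁ : RubinData F H G, D₁.S = D.S ∪ V → (V.Nonempty → 0 < D₁.r) ∧ (0 < D₁.r →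
        (Generates H ⊥ ((D.S ∪ V : Finset (HeightOneSpectrum (𝓞 F))) :
            Set (HeightOneSpectrum (𝓞 F))) ∅ →
          (∀ p : ℕ, p.Prime → p ∣ Units.torsionOrder H → ∀ P : Sylow p G, IsCyclic P) →
          Popescu D₁ → ∀ D' : RubinData F H G, D.S ⊆ D'.S →
            ∀ T : Finset (HeightOneSpectrum (𝓞 F)), D'.Allowed T → D'.Rubin T) ∧
        ∀ (p : ℕ) (hp : p.Prime),
          Generates H (notDvd p hp) ((D.S ∪ V : Finset (HeightOneSpectrum (𝓞 F))) :
            Set (HeightOneSpectrum (𝓞 F))) ∅ →
          (p ∣ Units.torsionOrder H → ∀ P : Sylow p G, IsCyclic P) →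
          PopescuAt p hp D₁ → ∀ D' : RubinData F H G, D.S ⊆ D'.S →
            ∀ T : Finset (HeightOneSpectrum (𝓞 F)), Disjoint D'.S T → PFree H p T →
              D'.RubinAt p T) := by
  refine ⟨exists_V_nonempty D ∅, fun V hV => ⟨exists_data D V, fun D₁ hD₁ =>
    ⟨?_, fun hr => ⟨?_, ?_⟩⟩⟩⟩
  · rintro ⟨v, hv⟩
    obtain ⟨h1, -, h3⟩ := hV v hv
    exact r_pos_of_split h1 h3 (by rw [hD₁]; exact Finset.mem_union_right _ hv)
  · intro hgen hsyl h D' hD' T hT
    rw [← rubinM_bot]
    exact pop_rubin (fun p hp hpw => exists_genSyl hp (hsyl p hp hpw)) D V hV hgen D₁ hD₁ hr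
      ((popescuWith_iff ⊥ D₁).1 h) D' hD' T hT.1 (allowed_free D' hT)
  · intro p hp hgen hsyl h D' hD' T hT hT'
    rw [← rubinM_notDvd D' T hp]
    exact pop_rubin_at hp (fun hpw => exists_genSyl hp (hsyl hpw)) D V hV hgen D₁ hD₁ hr
      ((popescuWith_iff (notDvd p hp) D₁).1 h) D' hD' T hT (pfree_free D' hp hT')

end Pool.Agent.Results.MP_dd9835_nt.PopescuImpliesRubin
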